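import Mathlib

set_option autoImplicit false

namespace Pool.Agent.H296R3.FF

/-- the big free group: generators `w_j` (`j : ℕ`) and `u_i` (`i < 4`) -/
abbrev Gm := FreeGroup (ℕ ⊕ Fin 4)

def w (j : ℕ) : Gm := FreeGroup.of (Sum.inl j)
def u (i : Fin 4) : Gm := FreeGroup.of (Sum.inr i)

/-- the exponent of `w_j` -/
def Eh (j : ℕ) : Gm →* Multiplicative ℤ :=
  FreeGroup.lift (fun s => if s = Sum.inl j then Multiplicative.ofAdd 1 else 1)

def E (j : ℕ) (x : Gm) : ℤ := Multiplicative.toAdd (Eh j x)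

lemma E_mul (j : ℕ) (x y : Gm) : E j (x * y) = E j x + E j y := by simp [E]
lemma E_one (j : ℕ) : E j 1 = 0 := by simp [E]
lemma E_inv (j : ℕ) (x : Gm) : E j x⁻¹ = -E j x := by simp [E]
lemma E_w_self (j : ℕ) : E j (w j) = 1 := by simp [E, Eh, w]
lemma E_w_ne {j k : ℕ} (h : k ≠ j) : E j (w k) = 0 := by simp [E, Eh, w, h]
lemma E_u (j : ℕ) (i : Fin 4) : E j (u i) = 0 := by simp [E, Eh, u]

/-- the Heisenberg group -/
@[ext] structure Heis where
  a : ℤ
  b : ℤ
  c : ℤ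

namespace Heis
instance : Mul Heis := ⟨fun x y => ⟨x.a + y.a, x.b + y.b, x.c + y.c + x.a * y.b⟩⟩
instance : One Heis := ⟨⟨0, 0, 0⟩⟩
instance : Inv Heis := ⟨fun x => ⟨-x.a, -x.b, -x.c + x.a * x.b⟩⟩
@[simp] lemma mul_a (x y : Heis) : (x * y).a = x.a + y.a := rfl
@[simp] lemma mul_b (x y : Heis) : (x * y).b = x.b + y.b := rfl
@[simp] lemma mul_c (x y : Heis) : (x * y).c = x.c + y.c + x.a * y.b := rfl
@[simp] lemma one_a : (1 : Heis).a = 0 := rfl
@[simp] lemma one_b : (1 : Heis).b = 0 := rfl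
@[simp] lemma one_c : (1 : Heis).c = 0 := rfl
@[simp] lemma inv_a (x : Heis) : (x⁻¹).a = -x.a := rfl
@[simp] lemma inv_b (x : Heis) : (x⁻¹).b = -x.b := rfl
@[simp] lemma inv_c (x : Heis) : (x⁻¹).c = -x.c + x.a * x.b := rfl
instance : Group Heis :=
  Group.ofLeftAxioms
    (by intro x y z; ext <;> simp <;> ring)
    (by intro x; ext <;> simp)
    (by intro x; ext <;> simp)
end Heis

/-- projection to the Heisenberg group of the letters `w_j, w_k` -/
def hh (j k : ℕ) : Gm →* Heis :=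
  FreeGroup.lift (fun s => if s = Sum.inl j then ⟨1, 0, 0⟩ else if s = Sum.inl k then ⟨0, 1, 0⟩ else 1)

/-- the Magnus coefficient -/
def C (j k : ℕ) (x : Gm) : ℤ := (hh j k x).c

lemma hh_a {j k : ℕ} (_h : j ≠ k) (x : Gm) : (hh j k x).a = E j x := by
  induction x using FreeGroup.induction_on with
  | C1 => simp [E_one]
  | of s =>
    simp only [hh, FreeGroup.lift_apply_of, E, Eh]
    split_ifs <;> simp_all
  | inv_of s ih => rw [map_inv, Heis.inv_a, ih, E_inv]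
  | mul x y hx hy => rw [map_mul, Heis.mul_a, hx, hy, E_mul]

lemma hh_b {j k : ℕ} (h : j ≠ k) (x : Gm) : (hh j k x).b = E k x := by
  induction x using FreeGroup.induction_on with
  | C1 => simp [E_one]
  | of s =>
    simp only [hh, FreeGroup.lift_apply_of, E, Eh]
    split_ifs <;> simp_all
  | inv_of s ih => rw [map_inv, Heis.inv_b, ih, E_inv]
  | mul x y hx hy => rw [map_mul, Heis.mul_b, hx, hy, E_mul]

lemma C_mul {j k : ℕ} (h : j ≠ k) (x y : Gm) : C j k (x * y) = C j k x + C j k y + E j x * E k y := by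
  unfold C
  rw [map_mul, Heis.mul_c, hh_a h, hh_b h]

lemma C_inv {j k : ℕ} (h : j ≠ k) (x : Gm) : C j k x⁻¹ = -C j k x + E j x * E k x := by
  unfold C
  rw [map_inv, Heis.inv_c, hh_a h, hh_b h]

/-- the subgroup of the letters `w_j`, `j ∈ I`, and all `u_i` -/
def Sub (I : Finset ℕ) : Subgroup Gm :=
  Subgroup.closure ({x | ∃ j ∈ I, x = w j} ∪ Set.range u)

lemma w_mem {I : Finset ℕ} {j : ℕ} (h : j ∈ I) : w j ∈ Sub I :=
  Subgroup.subset_closure (Or.inl ⟨j, h, rfl⟩)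

lemma u_mem {I : Finset ℕ} (i : Fin 4) : u i ∈ Sub I :=
  Subgroup.subset_closure (Or.inr ⟨i, rfl⟩)

lemma Sub_mono {I K : Finset ℕ} (h : I ⊆ K) : Sub I ≤ Sub K := by
  apply Subgroup.closure_mono
  apply Set.union_subset_union_left
  rintro x ⟨j, hj, rfl⟩
  exact ⟨j, h hj, rfl⟩

lemma E_Sub {I : Finset ℕ} {j : ℕ} (hj : j ∉ I) {x : Gm} (hx : x ∈ Sub I) : E j x = 0 := by
  induction hx using Subgroup.closure_induction with
  | mem x hx =>
    rcases hx with ⟨k, hk, rfl⟩ | ⟨i, rfl⟩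
    · exact E_w_ne (fun h => hj (h ▸ hk))
    · exact E_u j i
  | one => exact E_one j
  | mul x y _ _ hx hy => rw [E_mul, hx, hy, add_zero]
  | inv x _ hx => rw [E_inv, hx, neg_zero]

lemma C_w {j k : ℕ} (m : ℕ) : C j k (w m) = 0 := by
  unfold C w hh
  rw [FreeGroup.lift_apply_of]
  split_ifs <;> rfl

lemma C_u {j k : ℕ} (i : Fin 4) : C j k (u i) = 0 := by
  unfold C u hh
  rw [FreeGroup.lift_apply_of]
  simp

lemma C_one {j k : ℕ} : C j k 1 = 0 := by
  unfold C; simp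

lemma C_Sub {I : Finset ℕ} {j k : ℕ} (hjk : j ≠ k) (h : j ∉ I ∨ k ∉ I) {x : Gm} (hx : x ∈ Sub I) :
    C j k x = 0 := by
  induction hx using Subgroup.closure_induction with
  | mem x hx =>
    rcases hx with ⟨m, hm, rfl⟩ | ⟨i, rfl⟩
    · exact C_w m
    · exact C_u i
  | one => exact C_one
  | mul x y h1 h2 hx hy =>
    rw [C_mul hjk, hx, hy]
    rcases h with h | h
    · rw [E_Sub h h1]; ring
    · rw [E_Sub h h2]; ring
  | inv x h1 hx =>
    rw [C_inv hjk, hx]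
    rcases h with h | h
    · rw [E_Sub h h1]; ring
    · rw [E_Sub h h1]; ring

/-! words -/

/-- colour of the `l`-th letter -/
def col (l : ℕ) : Fin 4 := ⟨l % 4, Nat.mod_lt _ (by norm_num)⟩

/-- `w u_{c0} w u_{c1} ... w u_{c(l-1)}` -/
def pr (j : ℕ) : ℕ → Gm
  | 0 => 1
  | l + 1 => pr j l * (w j * u (col l))

/-- signs -/
def sg : Bool → ℝ
  | true => 1
  | false => -1

lemma sg_sq (e : Bool) : sg e * sg e = 1 := by cases e <;> simp [sg]
lemma sg_ne (e : Bool) : sg e ≠ 0 := by cases e <;> simp [sg]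

/-- the words `g_σ` -/
def g (L : ℕ) (s : ℕ × Bool) : Gm :=
  match s.2 with
  | true => pr s.1 L * w s.1
  | false => (pr s.1 L * w s.1)⁻¹

/-- left part at the `l`-th letter -/
def a (L : ℕ) (s : ℕ × Bool) (l : ℕ) : Gm :=
  match s.2 with
  | true => pr s.1 (l + 1)
  | false => (pr s.1 L * w s.1)⁻¹ * pr s.1 (l + 1)

/-- right part -/
def b (L : ℕ) (s : ℕ × Bool) (l : ℕ) : Gm := (a L s l)⁻¹ * g L s

lemma a_mul_b (L : ℕ) (s : ℕ × Bool) (l : ℕ) : a L s l * b L s l = g L s := by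
  unfold b; group

lemma pr_mem {I : Finset ℕ} {j : ℕ} (h : j ∈ I) (l : ℕ) : pr j l ∈ Sub I := by
  induction l with
  | zero => exact one_mem _
  | succ l ih => exact mul_mem ih (mul_mem (w_mem h) (u_mem _))

lemma g_mem {I : Finset ℕ} {L : ℕ} {s : ℕ × Bool} (h : s.1 ∈ I) : g L s ∈ Sub I := by
  unfold g
  obtain ⟨j, e⟩ := s
  cases e
  · exact inv_mem (mul_mem (pr_mem h _) (w_mem h))
  · exact mul_mem (pr_mem h _) (w_mem h)

lemma a_mem {I : Finset ℕ} {L : ℕ} {s : ℕ × Bool} (h : s.1 ∈ I) (l : ℕ) : a L s l ∈ Sub I := by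
  unfold a
  obtain ⟨j, e⟩ := s
  cases e
  · exact mul_mem (inv_mem (mul_mem (pr_mem h _) (w_mem h))) (pr_mem h _)
  · exact pr_mem h _

lemma b_mem {I : Finset ℕ} {L : ℕ} {s : ℕ × Bool} (h : s.1 ∈ I) (l : ℕ) : b L s l ∈ Sub I :=
  mul_mem (inv_mem (a_mem h l)) (g_mem h)

lemma E_pr (j l : ℕ) : E j (pr j l) = l := by
  induction l with
  | zero => exact E_one j
  | succ l ih =>
    show E j (pr j l * (w j * u (col l))) = _
    rw [E_mul, ih, E_mul, E_w_self, E_u]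
    push_cast; ring

/-- the exponent values -/
def alf (L : ℕ) (e : Bool) (l : ℕ) : ℤ :=
  match e with
  | true => l + 1
  | false => l - L

def gam (L : ℕ) (e : Bool) : ℤ :=
  match e with
  | true => L + 1
  | false => -(L + 1)

def bet (L : ℕ) (e : Bool) (l : ℕ) : ℤ := gam L e - alf L e l

lemma E_g (L : ℕ) (s : ℕ × Bool) : E s.1 (g L s) = gam L s.2 := by
  obtain ⟨j, e⟩ := s
  cases e
  · simp only [g, gam]
    rw [E_inv, E_mul, E_pr, E_w_self]
  · simp only [g, gam]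
    rw [E_mul, E_pr, E_w_self]

lemma E_a (L : ℕ) (s : ℕ × Bool) (l : ℕ) : E s.1 (a L s l) = alf L s.2 l := by
  obtain ⟨j, e⟩ := s
  cases e
  · simp only [a, alf]
    rw [E_mul, E_inv, E_mul, E_pr, E_w_self, E_pr]
    push_cast; ring
  · simp only [a, alf]
    rw [E_pr]; push_cast; ring

lemma E_b (L : ℕ) (s : ℕ × Bool) (l : ℕ) : E s.1 (b L s l) = bet L s.2 l := by
  unfold b bet
  rw [E_mul, E_inv, E_a, E_g]; ring

lemma alf_ne {L : ℕ} {e : Bool} {l : ℕ} (h : l < L) : alf L e l ≠ 0 := by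
  cases e <;> simp only [alf] <;> omega

lemma gam_ne {L : ℕ} {e : Bool} : gam L e ≠ 0 := by
  cases e <;> simp only [gam] <;> omega

lemma bet_ne {L : ℕ} {e : Bool} {l : ℕ} (h : l < L) : bet L e l ≠ 0 := by
  cases e <;> simp only [bet, gam, alf] <;> omega

lemma alf_inj {L : ℕ} {e e' : Bool} {l l' : ℕ} (h : l < L) (h' : l' < L)
    (hh : alf L e l = alf L e' l') : e = e' ∧ l = l' := by
  cases e <;> cases e' <;> simp only [alf] at hh <;> first
    | exact ⟨rfl, by omega⟩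
    | (exfalso; omega)

lemma bet_inj {L : ℕ} {e e' : Bool} {l l' : ℕ} (h : l < L) (h' : l' < L)
    (hh : bet L e l = bet L e' l') : e = e' ∧ l = l' := by
  cases e <;> cases e' <;> simp only [bet, gam, alf] at hh <;> first
    | exact ⟨rfl, by omega⟩
    | (exfalso; omega)

lemma gam_inj {L : ℕ} {e e' : Bool} (hh : gam L e = gam L e') : e = e' := by
  cases e <;> cases e' <;> simp only [gam] at hh <;> first
    | rfl
    | (exfalso; omega)

end Pool.Agent.H296R3.FF
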