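import Pool.Agent.H296R3.FF.A1

set_option autoImplicit false

namespace Pool.Agent.H296R3.FF

open Classical in
/-- translation of finitely supported functions -/
noncomputable def act (x : Gm) (m : Gm →₀ ℝ) : Gm →₀ ℝ := Finsupp.mapDomain (fun y => x * y) m

lemma act_apply (x : Gm) (m : Gm →₀ ℝ) (y : Gm) : act x m y = m (x⁻¹ * y) := by
  have h : y = (fun z => x * z) (x⁻¹ * y) := by simp
  unfold act
  conv_lhs => rw [h]
  rw [Finsupp.mapDomain_apply (mul_right_injective x)]

lemma act_add (x : Gm) (m m' : Gm →₀ ℝ) : act x (m + m') = act x m + act x m' :=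
  Finsupp.mapDomain_add

lemma act_zero (x : Gm) : act x 0 = 0 := Finsupp.mapDomain_zero

lemma act_single (x y : Gm) (r : ℝ) : act x (Finsupp.single y r) = Finsupp.single (x * y) r :=
  Finsupp.mapDomain_single

/-- Fox derivatives with respect to the `u_i` -/
structure Fox (D : Fin 4 → Gm → (Gm →₀ ℝ)) : Prop where
  mul : ∀ i x y, D i (x * y) = D i x + act x (D i y)
  u : ∀ i k, D i (u k) = if i = k then Finsupp.single (FF.u k) 1 else 0
  w : ∀ i j, D i (w j) = 0

variable {D : Fin 4 → Gm → (Gm →₀ ℝ)} (hD : Fox D)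
include hD

lemma Fox.mul_apply (i : Fin 4) (x y z : Gm) : D i (x * y) z = D i x z + D i y (x⁻¹ * z) := by
  rw [hD.mul, Finsupp.add_apply, act_apply]

lemma Fox.one (i : Fin 4) : D i 1 = 0 := by
  have h := hD.mul i 1 1
  rw [mul_one] at h
  ext z
  have h2 := congrArg (fun f => f z) h
  simp only [Finsupp.add_apply, act_apply, inv_one, one_mul] at h2
  simp only [Finsupp.coe_zero, Pi.zero_apply]
  linarith

lemma Fox.inv_apply (i : Fin 4) (x z : Gm) : D i x⁻¹ z = -D i x (x * z) := by
  have h := hD.mul_apply i x x⁻¹ (x * z)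
  rw [mul_inv_cancel, hD.one] at h
  simp only [Finsupp.coe_zero, Pi.zero_apply, inv_mul_cancel_left] at h
  linarith

lemma Fox.supp {I : Finset ℕ} {x : Gm} (hx : x ∈ Sub I) (i : Fin 4) {z : Gm} (hz : z ∉ Sub I) :
    D i x z = 0 := by
  induction hx using Subgroup.closure_induction generalizing z with
  | mem x hx =>
    rcases hx with ⟨k, hk, rfl⟩ | ⟨k, rfl⟩
    · rw [hD.w]; rfl
    · rw [hD.u]
      split_ifs
      · rw [Finsupp.single_apply, if_neg]
        rintro rfl
        exact hz (u_mem k)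
      · rfl
  | one => rw [hD.one]; rfl
  | mul x y h1 h2 hx hy =>
    rw [hD.mul_apply, hx hz, hy, add_zero]
    intro h
    apply hz
    have : z = x * (x⁻¹ * z) := by group
    rw [this]
    exact mul_mem h1 h
  | inv x h1 hx =>
    rw [hD.inv_apply, hx, neg_zero]
    intro h
    apply hz
    have : z = x⁻¹ * (x * z) := by group
    rw [this]
    exact mul_mem (inv_mem h1) h

lemma Fox.supp_E {I : Finset ℕ} {x : Gm} (hx : x ∈ Sub I) (i : Fin 4) {z : Gm} {j : ℕ} (hj : j ∉ I)
    (hz : E j z ≠ 0) : D i x z = 0 :=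
  hD.supp hx i (fun h => hz (E_Sub hj h))

lemma Fox.pr (i : Fin 4) (j l : ℕ) : D i (FF.pr j l) =
    ∑ r ∈ (Finset.range l).filter (fun r => col r = i), Finsupp.single (FF.pr j (r + 1)) 1 := by
  induction l with
  | zero => simp [FF.pr, hD.one]
  | succ l ih =>
    show D i (FF.pr j l * (FF.w j * FF.u (col l))) = _
    rw [hD.mul, ih, hD.mul, hD.w, zero_add, hD.u, Finset.range_add_one, Finset.filter_insert]
    by_cases h : col l = i
    · rw [if_pos h, if_pos h.symm, act_single, act_single, Finset.sum_insert (by simp), add_comm]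
      rfl
    · rw [if_neg h, if_neg (fun h' => h h'.symm), act_zero, act_zero, add_zero]

omit hD in
lemma pr_inj {j r r' : ℕ} (h : pr j (r + 1) = pr j (r' + 1)) : r = r' := by
  have h1 := congrArg (E j) h
  rw [E_pr, E_pr] at h1
  push_cast at h1
  omega

lemma Fox.pr_apply (i : Fin 4) (j l r : ℕ) : D i (FF.pr j l) (FF.pr j (r + 1)) =
    if r < l ∧ col r = i then 1 else 0 := by
  rw [hD.pr, Finsupp.finset_sum_apply]
  have : ∀ r' ∈ (Finset.range l).filter (fun r => col r = i),
      (Finsupp.single (FF.pr j (r' + 1)) (1:ℝ)) (FF.pr j (r + 1)) = if r' = r then 1 else 0 := by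
    intro r' _
    rw [Finsupp.single_apply]
    by_cases h : r' = r
    · subst h; simp
    · rw [if_neg (fun h' => h (pr_inj h')), if_neg h]
  rw [Finset.sum_congr rfl this, Finset.sum_ite_eq']
  simp

lemma Fox.prw (i : Fin 4) (j L : ℕ) : D i (FF.pr j L * FF.w j) = D i (FF.pr j L) := by
  rw [hD.mul, hD.w, act_zero, add_zero]

/-- Fox derivative of `g_σ` -/
lemma Fox.g (i : Fin 4) (L : ℕ) (s : ℕ × Bool) : D i (FF.g L s) =
    ∑ l ∈ (Finset.range L).filter (fun l => col l = i), Finsupp.single (a L s l) (sg s.2) := by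
  obtain ⟨j, e⟩ := s
  cases e
  · simp only [FF.g, a, sg]
    ext z
    rw [hD.inv_apply, hD.prw, hD.pr, Finsupp.finset_sum_apply, Finsupp.finset_sum_apply,
      ← Finset.sum_neg_distrib]
    refine Finset.sum_congr rfl fun l _ => ?_
    rw [Finsupp.single_apply, Finsupp.single_apply]
    by_cases h : FF.pr j (l + 1) = FF.pr j L * FF.w j * z
    · rw [if_pos h, if_pos]
      rw [h]; group
    · rw [if_neg h, if_neg, neg_zero]
      intro h'
      apply h
      rw [← h']; group
  · simp only [FF.g, a, sg]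
    rw [hD.prw, hD.pr]

omit hD in
lemma a_inj {L : ℕ} {s : ℕ × Bool} {l r : ℕ} (hl : l < L) (hr : r < L) (h : a L s l = a L s r) :
    l = r := by
  have h1 := congrArg (E s.1) h
  rw [E_a, E_a] at h1
  exact (alf_inj hl hr h1).2

lemma Fox.g_apply (i : Fin 4) {L : ℕ} (s : ℕ × Bool) {r : ℕ} (hr : r < L) :
    D i (FF.g L s) (a L s r) = if col r = i then sg s.2 else 0 := by
  rw [hD.g, Finsupp.finset_sum_apply]
  have : ∀ l ∈ (Finset.range L).filter (fun l => col l = i),
      (Finsupp.single (a L s l) (sg s.2)) (a L s r) = if l = r then sg s.2 else 0 := by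
    intro l hl
    rw [Finset.mem_filter, Finset.mem_range] at hl
    rw [Finsupp.single_apply]
    by_cases h : l = r
    · subst h; simp
    · rw [if_neg (fun h' => h (a_inj hl.1 hr h')), if_neg h]
  rw [Finset.sum_congr rfl this, Finset.sum_ite_eq']
  simp [hr]

omit hD in
/-- `r` lies in the left part at `l` -/
def inA (e : Bool) (l r : ℕ) : Prop :=
  match e with
  | true => r ≤ l
  | false => l < r

omit hD in
instance (e : Bool) (l r : ℕ) : Decidable (inA e l r) := by
  unfold inA; cases e <;> infer_instance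

lemma Fox.a_apply (i : Fin 4) {L : ℕ} (s : ℕ × Bool) {l r : ℕ} (hr : r < L) :
    D i (a L s l) (a L s r) = if inA s.2 l r ∧ col r = i then sg s.2 else 0 := by
  obtain ⟨j, e⟩ := s
  cases e
  · simp only [a, sg, inA]
    rw [hD.mul_apply, hD.inv_apply, hD.prw, inv_inv]
    have e1 : FF.pr j L * FF.w j * ((FF.pr j L * FF.w j)⁻¹ * FF.pr j (r + 1)) = FF.pr j (r + 1) := by group
    rw [e1, hD.pr_apply, hD.pr_apply]
    by_cases hc : col r = i
    · simp only [hc, and_true, hr, if_true]
      by_cases h : l < r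
      · rw [if_neg (by omega), if_pos h]; norm_num
      · rw [if_pos (by omega), if_neg h]; norm_num
    · simp [hc]
  · simp only [a, sg, inA]
    rw [hD.pr_apply]
    simp [Nat.lt_succ_iff]

lemma Fox.b_apply (i : Fin 4) {L : ℕ} (s : ℕ × Bool) {l r : ℕ} (hr : r < L) :
    D i (b L s l)⁻¹ (b L s r)⁻¹ = if ¬ inA s.2 l r ∧ col r = i then -sg s.2 else 0 := by
  have e1 : (b L s l)⁻¹ = (FF.g L s)⁻¹ * a L s l := by unfold b; group
  have e2 : (b L s r)⁻¹ = (FF.g L s)⁻¹ * a L s r := by unfold b; group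
  rw [e1, e2, hD.mul_apply, hD.inv_apply, inv_inv, mul_inv_cancel_left, hD.g_apply i s hr,
    hD.a_apply i s hr]
  by_cases hc : col r = i
  · simp only [hc, and_true, if_true]
    by_cases h : inA s.2 l r
    · simp [h]
    · simp [h]
  · simp [hc]

/-- existence of Fox derivatives -/
theorem dummy_fox : True := trivial

end Pool.Agent.H296R3.FF
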