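import Pool.Agent.H296R3.FF.A2

set_option autoImplicit false

namespace Pool.Agent.H296R3.FF

/-- the point of the first step -/
def px (L : ℕ) (A : Gm) (p : (ℕ × Bool) × ℕ) : Gm := a L p.1 p.2 * A⁻¹
def py (L : ℕ) (B : Gm) (p : (ℕ × Bool) × ℕ) : Gm := B⁻¹ * b L p.1 p.2

/-- left component of the new basis element -/
def nA (L : ℕ) (A : Gm) (p : (ℕ × Bool) × ℕ) (s : ℕ × Bool) (q : ℕ ⊕ ℕ) : Gm :=
  match q with
  | Sum.inl m => (px L A p)⁻¹ * a L s m
  | Sum.inr r => if inA p.1.2 p.2 r then (px L A p)⁻¹ * a L p.1 r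
      else (px L A p)⁻¹ * g L s * (b L p.1 r)⁻¹

/-- product of the components of the new basis element -/
def nv (L : ℕ) (A B : Gm) (p : (ℕ × Bool) × ℕ) (s : ℕ × Bool) : Gm :=
  (px L A p)⁻¹ * g L s * (py L B p)⁻¹

def nB (L : ℕ) (A B : Gm) (p : (ℕ × Bool) × ℕ) (s : ℕ × Bool) (q : ℕ ⊕ ℕ) : Gm :=
  (nA L A p s q)⁻¹ * nv L A B p s

/-- position of the letter -/
def pos (q : ℕ ⊕ ℕ) : ℕ := Sum.elim id id q

/-- admissible data -/
structure Adm (L : ℕ) (A B : Gm) (I : Finset ℕ) (p : (ℕ × Bool) × ℕ) (s : ℕ × Bool) (q : ℕ ⊕ ℕ) :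
    Prop where
  hA : A ∈ Sub I
  hB : B ∈ Sub I
  h1 : p.1.1 ∉ I
  hl : p.2 < L
  h2 : s.1 ∉ insert p.1.1 I
  hq : pos q < L
  hr : ∀ r, q = Sum.inr r → r ≠ p.2

theorem K0 {L : ℕ} {A B A' B' : Gm} {I I' : Finset ℕ} {p p' : (ℕ × Bool) × ℕ}
    (hA : A ∈ Sub I) (hA' : A' ∈ Sub I') (h1 : p.1.1 ∉ I) (h1' : p'.1.1 ∉ I')
    (hl : p.2 < L) (hl' : p'.2 < L) (hx : px L A p = px L A' p') (hy : py L B p = py L B' p') :
    p = p' ∧ A = A' ∧ B = B' := by
  have key : p.1.1 = p'.1.1 := by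
    by_contra hne
    have e1 : C p.1.1 p'.1.1 (px L A p) = alf L p.1.2 p.2 * E p'.1.1 (px L A p) := by
      unfold px
      rw [C_mul hne, C_Sub hne (Or.inr (by simpa using Ne.symm hne)) (a_mem (Finset.mem_singleton_self _) p.2),
        C_Sub hne (Or.inl h1) (inv_mem hA), E_a, E_mul,
        E_Sub (j := p'.1.1) (by simpa using Ne.symm hne) (a_mem (Finset.mem_singleton_self _) p.2)]
      ring
    have e2 : C p.1.1 p'.1.1 (px L A' p') = 0 := by
      unfold px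
      rw [C_mul hne, C_Sub hne (Or.inl (by simpa using hne)) (a_mem (Finset.mem_singleton_self _) p'.2),
        C_Sub hne (Or.inr h1') (inv_mem hA'),
        E_Sub (j := p.1.1) (by simpa using hne) (a_mem (Finset.mem_singleton_self _) p'.2)]
      ring
    have e3 : E p'.1.1 (px L A' p') = alf L p'.1.2 p'.2 := by
      unfold px
      rw [E_mul, E_a, E_Sub h1' (inv_mem hA')]
      ring
    rw [hx, e2, e3] at e1
    rcases mul_eq_zero.1 e1.symm with h | h
    · exact alf_ne hl h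
    · exact alf_ne hl' h
  have e4 : E p.1.1 (px L A p) = alf L p.1.2 p.2 := by
    unfold px
    rw [E_mul, E_a, E_Sub h1 (inv_mem hA)]
    ring
  have e5 : E p'.1.1 (px L A' p') = alf L p'.1.2 p'.2 := by
    unfold px
    rw [E_mul, E_a, E_Sub h1' (inv_mem hA')]
    ring
  rw [← hx, ← key, e4] at e5
  obtain ⟨h6, h7⟩ := alf_inj hl hl' e5
  have hp : p = p' := by
    obtain ⟨⟨j, e⟩, l⟩ := p
    obtain ⟨⟨j', e'⟩, l'⟩ := p'
    simp only at key h6 h7
    rw [key, h6, h7]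
  subst hp
  refine ⟨rfl, ?_, ?_⟩
  · unfold px at hx
    exact inv_injective (mul_left_cancel hx)
  · unfold py at hy
    exact inv_injective (mul_right_cancel hy)

end Pool.Agent.H296R3.FF
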