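import Mathlib

set_option autoImplicit false

namespace Pool.Agent.H296R3.FF

open Classical in
/-- squared `ℓ²` norm of a finitely supported function -/
noncomputable def nsq {α : Type*} (f : α →₀ ℝ) : ℝ := f.sum fun _ c => c ^ 2

lemma nsq_nonneg {α : Type*} (f : α →₀ ℝ) : 0 ≤ nsq f :=
  Finset.sum_nonneg fun _ _ => sq_nonneg _

lemma nsq_eq {α : Type*} (f : α →₀ ℝ) {S : Finset α} (h : f.support ⊆ S) :
    nsq f = ∑ a ∈ S, f a ^ 2 := by
  unfold nsq Finsupp.sum
  apply Finset.sum_subset h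
  intro x _ hx
  rw [Finsupp.notMem_support_iff.1 hx]; ring

lemma nsq_add_le {α : Type*} (f g : α →₀ ℝ) : nsq (f + g) ≤ 2 * nsq f + 2 * nsq g := by
  classical
  rw [nsq_eq (f + g) Finsupp.support_add, nsq_eq f Finset.subset_union_left,
    nsq_eq g (Finset.subset_union_right (s₁ := f.support)), Finset.mul_sum, Finset.mul_sum,
    ← Finset.sum_add_distrib]
  refine Finset.sum_le_sum fun a _ => ?_
  rw [Finsupp.add_apply]
  nlinarith [sq_nonneg (f a - g a)]

lemma nsq_smul {α : Type*} (r : ℝ) (f : α →₀ ℝ) : nsq (r • f) = r ^ 2 * nsq f := by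
  classical
  rw [nsq_eq (r • f) Finsupp.support_smul, nsq_eq f (le_refl _), Finset.mul_sum]
  refine Finset.sum_congr rfl fun a _ => ?_
  rw [Finsupp.smul_apply, smul_eq_mul, mul_pow]

lemma nsq_zero {α : Type*} : nsq (0 : α →₀ ℝ) = 0 := by
  simp [nsq]

lemma nsq_neg {α : Type*} (f : α →₀ ℝ) : nsq (-f) = nsq f := by
  have h := nsq_smul (-1) f
  rw [neg_one_smul] at h
  rw [h]; ring

/-- bound by the multiplicity -/
lemma nsq_sum_single {α ι : Type*} [DecidableEq α] (S : Finset ι) (φ : ι → α) (c : ι → ℝ) (M : ℕ)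
    (h : ∀ x, (S.filter (fun t => φ t = x)).card ≤ M) :
    nsq (∑ t ∈ S, Finsupp.single (φ t) (c t)) ≤ M * ∑ t ∈ S, c t ^ 2 := by
  classical
  have hsub : (∑ t ∈ S, Finsupp.single (φ t) (c t)).support ⊆ S.image φ := by
    refine (Finsupp.support_finset_sum).trans ?_
    intro x hx
    rw [Finset.mem_biUnion] at hx
    obtain ⟨t, ht, hx⟩ := hx
    have := Finsupp.support_single_subset hx
    rw [Finset.mem_singleton] at this
    exact Finset.mem_image.2 ⟨t, ht, this.symm⟩
  rw [nsq_eq _ hsub]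
  have h1 : ∀ x ∈ S.image φ, (∑ t ∈ S, Finsupp.single (φ t) (c t)) x ^ 2 ≤
      M * ∑ t ∈ S.filter (fun t => φ t = x), c t ^ 2 := by
    intro x _
    have h2 : (∑ t ∈ S, Finsupp.single (φ t) (c t)) x = ∑ t ∈ S.filter (fun t => φ t = x), c t := by
      rw [Finsupp.finset_sum_apply, Finset.sum_filter]
      refine Finset.sum_congr rfl fun t _ => ?_
      rw [Finsupp.single_apply]
    rw [h2]
    refine (sq_sum_le_card_mul_sum_sq).trans ?_
    refine mul_le_mul_of_nonneg_right ?_ (Finset.sum_nonneg fun _ _ => sq_nonneg _)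
    exact_mod_cast h x
  refine (Finset.sum_le_sum h1).trans ?_
  rw [← Finset.mul_sum]
  apply le_of_eq
  congr 1
  exact (Finset.sum_fiberwise_of_maps_to (fun t ht => Finset.mem_image_of_mem φ ht) _)

lemma nsq_sum_inj {α ι : Type*} (S : Finset ι) (φ : ι → α) (c : ι → ℝ)
    (h : ∀ t ∈ S, ∀ t' ∈ S, φ t = φ t' → t = t') :
    nsq (∑ t ∈ S, Finsupp.single (φ t) (c t)) ≤ ∑ t ∈ S, c t ^ 2 := by
  classical
  have := nsq_sum_single S φ c 1 (fun x => by
    rw [Finset.card_le_one]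
    intro t ht t' ht'
    rw [Finset.mem_filter] at ht ht'
    exact h t ht.1 t' ht'.1 (ht.2.trans ht'.2.symm))
  simpa using this

end Pool.Agent.H296R3.FF
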