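import Pool.Agent.H296R3.FF.A3
import Pool.Agent.H296R3.FF.B1

set_option autoImplicit false

open Finset

namespace Pool.Agent.H296R3.FF

/-- retraction onto `Sub K` -/
def ret (K : Finset ℕ) : Gm →* Gm :=
  FreeGroup.lift (Sum.elim (fun j => if j ∈ K then w j else 1) u)

lemma ret_w (K : Finset ℕ) (j : ℕ) : ret K (w j) = if j ∈ K then w j else 1 := by
  simp [ret, w]

lemma ret_u (K : Finset ℕ) (i : Fin 4) : ret K (u i) = u i := by
  simp [ret, u]

lemma ret_of_mem {K : Finset ℕ} {x : Gm} (h : x ∈ Sub K) : ret K x = x := by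
  induction h using Subgroup.closure_induction with
  | mem x hx =>
    rcases hx with ⟨m, hm, rfl⟩ | ⟨i, rfl⟩
    · rw [ret_w, if_pos hm]
    · exact ret_u K i
  | one => exact map_one _
  | mul x y _ _ hx hy => rw [map_mul, hx, hy]
  | inv x _ hx => rw [map_inv, hx]

lemma ret_mem {I K : Finset ℕ} {x : Gm} (h : x ∈ Sub I) : ret K x ∈ Sub (I ∩ K) := by
  induction h using Subgroup.closure_induction with
  | mem x hx =>
    rcases hx with ⟨m, hm, rfl⟩ | ⟨i, rfl⟩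
    · rw [ret_w]
      split_ifs with h
      · exact w_mem (mem_inter.2 ⟨hm, h⟩)
      · exact one_mem _
    · rw [ret_u]; exact u_mem i
  | one => rw [map_one]; exact one_mem _
  | mul x y _ _ hx hy => rw [map_mul]; exact mul_mem hx hy
  | inv x _ hx => rw [map_inv]; exact inv_mem hx

lemma Sub_inter {I K : Finset ℕ} {x : Gm} (h : x ∈ Sub I) (h' : x ∈ Sub K) : x ∈ Sub (I ∩ K) := by
  rw [← ret_of_mem h']
  exact ret_mem h

abbrev Bs := Fin 4 × Gm × Gm
abbrev Pt := (ℕ × Bool) × ℕ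

def Sg (J : ℕ) : Finset (ℕ × Bool) := range J ×ˢ univ

lemma card_Sg (J : ℕ) : (Sg J).card = 2 * J := by
  simp [Sg, mul_comm]

lemma mem_Sg {J : ℕ} {s : ℕ × Bool} : s ∈ Sg J ↔ s.1 < J := by
  simp [Sg]

noncomputable def kap (J : ℕ) : ℝ := (Real.sqrt (2 * J))⁻¹

lemma kap_sq {J : ℕ} : kap J * kap J = 1 / (2 * J) := by
  unfold kap
  rw [← mul_inv, Real.mul_self_sqrt (by positivity), one_div]

/-- pairs allowed for the colour `i` -/
def Pc (J L : ℕ) (i : Fin 4) : Finset Pt := Sg J ×ˢ ((range L).filter (fun l => col l = i))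

lemma mem_Pc {J L : ℕ} {i : Fin 4} {p : Pt} :
    p ∈ Pc J L i ↔ p.1.1 < J ∧ p.2 < L ∧ col p.2 = i := by
  simp [Pc, mem_Sg]

lemma card_col (p : ℕ) (i : Fin 4) : ((range (4 * p)).filter (fun l => col l = i)).card = p := by
  induction p with
  | zero => simp
  | succ p ih =>
    rw [card_filter] at ih ⊢
    rw [Nat.mul_succ, sum_range_succ, sum_range_succ, sum_range_succ, sum_range_succ, ih]
    have h0 : col (4 * p) = 0 := by simp [col]
    have h1 : col (4 * p + 1) = 1 := by apply Fin.ext; simp [col]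
    have h2 : col (4 * p + 2) = 2 := by apply Fin.ext; simp [col]
    have h3 : col (4 * p + 3) = 3 := by apply Fin.ext; simp [col]
    rw [h0, h1, h2, h3]
    fin_cases i <;> simp

lemma card_Pc (J p : ℕ) (i : Fin 4) : (Pc J (4 * p) i).card = 2 * J * p := by
  rw [Pc, card_product, card_Sg, card_col]

noncomputable def Tb (J L : ℕ) (e : Bs) : (Gm × Gm) →₀ ℝ :=
  ∑ p ∈ Pc J L e.1, Finsupp.single (px L e.2.1 p, py L e.2.2 p) (kap J * sg p.1.2)

noncomputable def T (J L : ℕ) : (Bs →₀ ℝ) →ₗ[ℝ] ((Gm × Gm) →₀ ℝ) :=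
  Finsupp.linearCombination ℝ (Tb J L)

/-- families of basis elements -/
structure Fam (J L N : ℕ) where
  ι : Type
  S : Finset ι
  e : ι → Bs
  I : ι → Finset ℕ
  c : ι → ℝ
  mn : ι → Option Pt
  inj : ∀ t ∈ S, ∀ t' ∈ S, e t = e t' → t = t'
  hI : ∀ t ∈ S, I t ⊆ range J
  hN : ∀ t ∈ S, (I t).card = N
  hA : ∀ t ∈ S, (e t).2.1 ∈ Sub (I t)
  hB : ∀ t ∈ S, (e t).2.2 ∈ Sub (I t)
  vis : ∀ t ∈ S, ∀ p : Pt, p.1.1 ∈ I t → p.2 < L → px L (e t).2.1 p ∈ Sub ((I t).erase p.1.1) →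
    py L (e t).2.2 p ∈ Sub ((I t).erase p.1.1) → mn t = some p
  mnI : ∀ t ∈ S, ∀ p, mn t = some p → p.1.1 ∈ I t ∧ p.2 < L ∧ col p.2 = (e t).1

namespace Fam

variable {J L N : ℕ} (F : Fam J L N)

noncomputable def eta : Bs →₀ ℝ := ∑ t ∈ F.S, Finsupp.single (F.e t) (F.c t)

noncomputable def q : ℝ := ∑ t ∈ F.S, F.c t ^ 2

lemma q_nonneg : 0 ≤ F.q := sum_nonneg fun _ _ => sq_nonneg _

lemma nsq_eta : nsq F.eta ≤ F.q := nsq_sum_inj _ _ _ F.inj

def AP : Finset (Σ _ : F.ι, Pt) := F.S.sigma (fun t => Pc J L (F.e t).1)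

def ph (x : Σ _ : F.ι, Pt) : Gm × Gm := (px L (F.e x.1).2.1 x.2, py L (F.e x.1).2.2 x.2)

noncomputable def wt (x : Σ _ : F.ι, Pt) : ℝ := F.c x.1 * (kap J * sg x.2.1.2)

noncomputable def Y : (Gm × Gm) →₀ ℝ :=
  ∑ x ∈ F.AP.filter (fun x => x.2.1.1 ∉ F.I x.1), Finsupp.single (F.ph x) (F.wt x)

noncomputable def Mn : (Gm × Gm) →₀ ℝ :=
  ∑ x ∈ F.AP.filter (fun x => x.2.1.1 ∈ F.I x.1 ∧ F.mn x.1 = some x.2),
    Finsupp.single (F.ph x) (F.wt x)

noncomputable def R : (Gm × Gm) →₀ ℝ :=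
  ∑ x ∈ F.AP.filter (fun x => x.2.1.1 ∈ F.I x.1 ∧ F.mn x.1 ≠ some x.2),
    Finsupp.single (F.ph x) (F.wt x)

lemma T_eta : T J L F.eta = F.Y + (F.Mn + F.R) := by
  have h1 : T J L F.eta = ∑ x ∈ F.AP, Finsupp.single (F.ph x) (F.wt x) := by
    unfold eta T AP
    rw [map_sum, sum_sigma]
    refine sum_congr rfl fun t _ => ?_
    rw [Finsupp.linearCombination_single, Tb, smul_sum]
    refine sum_congr rfl fun p _ => ?_
    rw [Finsupp.smul_single, smul_eq_mul]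
    rfl
  rw [h1, ← sum_filter_add_sum_filter_not F.AP (fun x => x.2.1.1 ∉ F.I x.1)]
  congr 1
  rw [← sum_filter_add_sum_filter_not (F.AP.filter fun x => ¬ x.2.1.1 ∉ F.I x.1)
    (fun x => F.mn x.1 = some x.2), filter_filter, filter_filter]
  simp only [not_not]
  rfl

lemma wt_sq (x : Σ _ : F.ι, Pt) : F.wt x ^ 2 = F.c x.1 ^ 2 * (1 / (2 * J)) := by
  unfold wt
  have h1 := sg_sq x.2.1.2
  have h2 := kap_sq (J := J)
  calc (F.c x.1 * (kap J * sg x.2.1.2)) ^ 2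
      = F.c x.1 ^ 2 * ((kap J * kap J) * (sg x.2.1.2 * sg x.2.1.2)) := by ring
    _ = _ := by rw [h1, h2, mul_one]

lemma ph_inj {x y : Σ _ : F.ι, Pt} (hx : x ∈ F.AP) (hy : y ∈ F.AP) (h : F.ph x = F.ph y)
    (hp : x.2 = y.2) : x = y := by
  obtain ⟨t, p⟩ := x
  obtain ⟨t', p'⟩ := y
  simp only at hp
  subst hp
  rw [AP, mem_sigma] at hx hy
  simp only [mem_Pc] at hx hy
  simp only [ph, Prod.mk.injEq] at h
  have h1 : (F.e t).2.1 = (F.e t').2.1 := by
    have := h.1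
    unfold px at this
    exact inv_injective (mul_left_cancel this)
  have h2 : (F.e t).2.2 = (F.e t').2.2 := by
    have := h.2
    unfold py at this
    exact inv_injective (mul_right_cancel this)
  have h3 : (F.e t).1 = (F.e t').1 := by rw [← hx.2.2.2, ← hy.2.2.2]
  have h4 : F.e t = F.e t' := Prod.ext h3 (Prod.ext h1 h2)
  have h5 := F.inj t hx.1 t' hy.1 h4
  subst h5
  rfl

lemma sum_AP_le (hL : ∃ p, L = 4 * p) (hJ : 0 < J) :
    ∑ x ∈ F.AP, F.wt x ^ 2 ≤ L / 4 * F.q := by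
  obtain ⟨p, rfl⟩ := hL
  simp_rw [wt_sq]
  unfold AP q
  rw [sum_sigma, mul_sum]
  refine sum_le_sum fun t _ => ?_
  simp only
  rw [sum_const, card_Pc, nsmul_eq_mul]
  have : (J:ℝ) ≠ 0 := by positivity
  push_cast
  apply le_of_eq
  field_simp

lemma nsq_Y (hL : ∃ p, L = 4 * p) (hJ : 0 < J) : nsq F.Y ≤ L / 4 * F.q := by
  refine le_trans (nsq_sum_inj _ _ _ ?_) (le_trans ?_ (F.sum_AP_le hL hJ))
  · intro x hx y hy hxy
    rw [mem_filter] at hx hy
    have hx2 := hx.1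
    have hy2 := hy.1
    rw [AP, mem_sigma, mem_Pc] at hx2 hy2
    simp only [ph, Prod.mk.injEq] at hxy
    obtain ⟨h1, _, _⟩ := K0 (F.hA _ hx2.1) (F.hA _ hy2.1) hx.2 hy.2 hx2.2.2.1 hy2.2.2.1
      hxy.1 hxy.2
    exact F.ph_inj hx.1 hy.1 (by simp only [ph, Prod.mk.injEq]; exact hxy) h1
  · exact sum_le_sum_of_subset_of_nonneg (filter_subset _ _) fun _ _ _ => sq_nonneg _

lemma nsq_R (hJ : 0 < J) : nsq F.R ≤ (2 * N * L) ^ 2 / (2 * J) * F.q := by
  classical
  have hM : ∀ z, ((F.AP.filter (fun x => x.2.1.1 ∈ F.I x.1 ∧ F.mn x.1 ≠ some x.2)).filter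
      (fun x => F.ph x = z)).card ≤ 2 * N * L := by
    intro z
    set Z := (F.AP.filter (fun x => x.2.1.1 ∈ F.I x.1 ∧ F.mn x.1 ≠ some x.2)).filter
      (fun x => F.ph x = z) with hZ
    rcases Z.eq_empty_or_nonempty with h | ⟨x0, hx0⟩
    · rw [h]; simp
    have hx0' := hx0
    rw [hZ, mem_filter, mem_filter, AP, mem_sigma, mem_Pc] at hx0'
    obtain ⟨⟨⟨h01, h02, h03, h04⟩, h05, h06⟩, h07⟩ := hx0'
    have hmap : ∀ x ∈ Z, x.2 ∈ ((F.I x0.1) ×ˢ (univ : Finset Bool)) ×ˢ range L := by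
      intro x hx
      rw [hZ, mem_filter, mem_filter, AP, mem_sigma, mem_Pc] at hx
      obtain ⟨⟨⟨h1, h2, h3, h4⟩, h5, h6⟩, h7⟩ := hx
      simp only [mem_product, mem_univ, and_true, mem_range]
      refine ⟨?_, h3⟩
      by_contra hcon
      apply h6
      have e1 : F.ph x = F.ph x0 := h7.trans h07.symm
      simp only [ph, Prod.mk.injEq] at e1
      have hin : ∀ y : Gm, y ∈ Sub (F.I x.1) → y ∈ Sub (F.I x0.1) →
          y ∈ Sub ((F.I x.1).erase x.2.1.1) := by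
        intro y h8 h9
        refine Sub_mono ?_ (Sub_inter h8 h9)
        intro k hk
        rw [mem_inter] at hk
        rw [mem_erase]
        exact ⟨fun h => hcon (h ▸ hk.2), hk.1⟩
      apply F.vis _ h1 _ h5 h3
      · apply hin
        · exact mul_mem (a_mem h5 _) (inv_mem (F.hA _ h1))
        · rw [e1.1]
          exact mul_mem (a_mem h05 _) (inv_mem (F.hA _ h01))
      · apply hin
        · exact mul_mem (inv_mem (F.hB _ h1)) (b_mem h5 _)
        · rw [e1.2]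
          exact mul_mem (inv_mem (F.hB _ h01)) (b_mem h05 _)
    have hinj : Set.InjOn (fun x : (Σ _ : F.ι, Pt) => x.2) Z := by
      intro x hx y hy hxy
      rw [mem_coe, hZ, mem_filter, mem_filter] at hx hy
      exact F.ph_inj hx.1.1 hy.1.1 (hx.2.trans hy.2.symm) hxy
    have := card_le_card_of_injOn (fun x : (Σ _ : F.ι, Pt) => x.2) hmap hinj
    rw [card_product, card_product, F.hN _ h01, card_univ, Fintype.card_bool, card_range] at this
    calc Z.card ≤ N * 2 * L := this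
      _ = 2 * N * L := by ring
  refine (nsq_sum_single _ _ _ _ hM).trans ?_
  have hsum : ∑ x ∈ F.AP.filter (fun x => x.2.1.1 ∈ F.I x.1 ∧ F.mn x.1 ≠ some x.2), F.wt x ^ 2 ≤
      (2 * N * L) / (2 * J) * F.q := by
    simp_rw [wt_sq]
    have hsub : F.AP.filter (fun x => x.2.1.1 ∈ F.I x.1 ∧ F.mn x.1 ≠ some x.2) ⊆
        F.S.sigma (fun t => ((F.I t) ×ˢ (univ : Finset Bool)) ×ˢ range L) := by
      intro x hx
      rw [mem_filter, AP, mem_sigma, mem_Pc] at hx
      rw [mem_sigma]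
      simp only [mem_product, mem_univ, and_true, mem_range]
      exact ⟨hx.1.1, hx.2.1, hx.1.2.2.1⟩
    refine (sum_le_sum_of_subset_of_nonneg hsub fun x _ _ => by positivity).trans ?_
    rw [sum_sigma]
    unfold q
    rw [mul_sum]
    refine sum_le_sum fun t ht => ?_
    simp only
    rw [sum_const, card_product, card_product, F.hN _ ht, card_univ, Fintype.card_bool, card_range,
      nsmul_eq_mul]
    push_cast
    apply le_of_eq
    have : (J:ℝ) ≠ 0 := by positivity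
    field_simp
  calc ((2 * N * L : ℕ) : ℝ) * _ ≤ ((2 * N * L : ℕ) : ℝ) * ((2 * N * L) / (2 * J) * F.q) :=
        mul_le_mul_of_nonneg_left hsum (by positivity)
    _ = _ := by push_cast; ring

end Fam

end Pool.Agent.H296R3.FF
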