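import Pool.Agent.H296R3.FF.B2
import Pool.Agent.H656R2.FG.K

set_option autoImplicit false

open Finset

namespace Pool.Agent.H296R3.FF

/-- the functional of condition (ii) -/
noncomputable def bmap (D : Fin 4 → Gm → (Gm →₀ ℝ)) : (Bs →₀ ℝ) →ₗ[ℝ] (Gm →₀ ℝ) :=
  Finsupp.linearCombination ℝ (fun e => Finsupp.single (e.2.1 * e.2.2) (D e.1 (e.2.1 * e.2.2) e.2.1))

/-- the element `P` -/
noncomputable def PP (J L : ℕ) : Gm →₀ ℝ := ∑ s ∈ Sg J, Finsupp.single (g L s) (kap J)

lemma E_a_ne {L : ℕ} {s : ℕ × Bool} {j : ℕ} (h : s.1 ≠ j) (l : ℕ) : E j (a L s l) = 0 :=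
  E_Sub (I := {s.1}) (by simpa using Ne.symm h) (a_mem (mem_singleton_self _) l)

lemma pt_ext {p t : Pt} (h : p.1.1 = t.1.1) (h1 : p.1.2 = t.1.2) (h2 : p.2 = t.2) : p = t :=
  Prod.ext (Prod.ext h h1) h2

/-- the first family -/
noncomputable def F0 (J L : ℕ) : Fam J L 1 where
  ι := Pt
  S := Sg J ×ˢ range L
  e := fun p => (col p.2, a L p.1 p.2, b L p.1 p.2)
  I := fun p => {p.1.1}
  c := fun p => kap J / L * sg p.1.2
  mn := fun p => some p
  inj := by
    intro t ht t' ht' h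
    rw [mem_product, mem_range] at ht ht'
    simp only [Prod.mk.injEq] at h
    have h1 : t.1.1 = t'.1.1 := by
      by_contra hne
      have h2 := congrArg (E t.1.1) h.2.1
      rw [E_a, E_a_ne (Ne.symm hne)] at h2
      exact alf_ne ht.2 h2
    have h3 := congrArg (E t.1.1) h.2.1
    rw [E_a, h1, E_a] at h3
    obtain ⟨h4, h5⟩ := alf_inj ht.2 ht'.2 h3
    exact pt_ext h1 h4 h5
  hI := by
    intro t ht
    rw [mem_product, mem_Sg] at ht
    simpa using ht.1
  hN := by intro t _; simp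
  hA := by intro t _; exact a_mem (mem_singleton_self _) _
  hB := by intro t _; exact b_mem (mem_singleton_self _) _
  vis := by
    intro t ht p hp hl hX _
    rw [mem_product, mem_range] at ht
    rw [mem_singleton] at hp
    have h1 : E p.1.1 (px L (a L t.1 t.2) p) = 0 := E_Sub (by simp) hX
    unfold px at h1
    rw [E_mul, E_inv, E_a, hp, E_a] at h1
    have h2 : alf L p.1.2 p.2 = alf L t.1.2 t.2 := by linarith
    obtain ⟨h3, h4⟩ := alf_inj hl ht.2 h2
    rw [pt_ext hp h3 h4]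
  mnI := by
    intro t ht p hp
    rw [mem_product, mem_range] at ht
    simp only [Option.some.injEq] at hp
    subst hp
    exact ⟨mem_singleton_self _, ht.2, rfl⟩

lemma F0_q {J L : ℕ} (hJ : 0 < J) (hL : 0 < L) : (F0 J L).q = 1 / L := by
  have h : ∀ t ∈ (F0 J L).S, (F0 J L).c t ^ 2 = 1 / (2 * J) / L ^ 2 := by
    intro t _
    show (kap J / L * sg t.1.2) ^ 2 = _
    calc (kap J / L * sg t.1.2) ^ 2 = (kap J * kap J) / L ^ 2 * (sg t.1.2 * sg t.1.2) := by ring
      _ = _ := by rw [kap_sq, sg_sq, mul_one]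
  unfold Fam.q
  rw [sum_congr rfl h, sum_const]
  show ((Sg J ×ˢ range L).card) • _ = _
  rw [card_product, card_Sg, card_range, nsmul_eq_mul]
  have : (J:ℝ) ≠ 0 := by positivity
  have : (L:ℝ) ≠ 0 := by positivity
  push_cast
  field_simp

lemma F0_Mn {J L : ℕ} (hJ : 0 < J) (hL : 0 < L) :
    (F0 J L).Mn = Finsupp.single (1, 1) 1 := by
  have h1 : (F0 J L).Mn = ∑ t ∈ Sg J ×ˢ range L, Finsupp.single ((1 : Gm), (1 : Gm)) (1 / (2 * J * L) : ℝ) := by
    unfold Fam.Mn
    symm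
    refine sum_bij (fun t _ => (⟨t, t⟩ : Σ _ : (F0 J L).ι, Pt)) ?_ ?_ ?_ ?_
    · intro t ht
      have ht' := ht
      rw [mem_product, mem_Sg, mem_range] at ht'
      rw [mem_filter, Fam.AP, mem_sigma, mem_Pc]
      exact ⟨⟨ht, ht'.1, ht'.2, rfl⟩, mem_singleton_self _, rfl⟩
    · intro t _ t' _ h
      exact (Sigma.mk.inj_iff.1 h).1
    · intro x hx
      obtain ⟨t, p⟩ := x
      rw [mem_filter, Fam.AP, mem_sigma] at hx
      have h2 : (some t : Option Pt) = some p := hx.2.2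
      simp only [Option.some.injEq] at h2
      subst h2
      exact ⟨t, hx.1.1, rfl⟩
    · intro t ht
      have e1 : (F0 J L).ph ⟨t, t⟩ = (1, 1) := by
        show (a L t.1 t.2 * (a L t.1 t.2)⁻¹, (b L t.1 t.2)⁻¹ * b L t.1 t.2) = _
        rw [mul_inv_cancel, inv_mul_cancel]
      have e2 : (F0 J L).wt ⟨t, t⟩ = 1 / (2 * J * L) := by
        show (kap J / L * sg t.1.2) * (kap J * sg t.1.2) = _
        calc (kap J / L * sg t.1.2) * (kap J * sg t.1.2) =
            (kap J * kap J) / L * (sg t.1.2 * sg t.1.2) := by ring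
          _ = _ := by rw [kap_sq, sg_sq, mul_one]; field_simp
      rw [e1, e2]
  rw [h1, ← Finsupp.single_finset_sum, sum_const, card_product, card_Sg, card_range, nsmul_eq_mul]
  congr 1
  have : (J:ℝ) ≠ 0 := by positivity
  have : (L:ℝ) ≠ 0 := by positivity
  push_cast
  field_simp

variable {D : Fin 4 → Gm → (Gm →₀ ℝ)} (hD : Fox D)
include hD

lemma F0_b {J L : ℕ} (hL : 0 < L) : bmap D (F0 J L).eta = PP J L := by
  unfold Fam.eta bmap
  rw [map_sum]
  have h1 : ∀ t ∈ (F0 J L).S, (Finsupp.linearCombination ℝ fun e : Bs =>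
      Finsupp.single (e.2.1 * e.2.2) (D e.1 (e.2.1 * e.2.2) e.2.1))
      (Finsupp.single ((F0 J L).e t) ((F0 J L).c t)) = Finsupp.single (g L t.1) (kap J / L) := by
    intro t ht
    have ht2 : t.2 < L := mem_range.1 (mem_product.1 (show (t : Pt) ∈ Sg J ×ˢ range L from ht)).2
    rw [Finsupp.linearCombination_single]
    show (kap J / L * sg t.1.2) • Finsupp.single (a L t.1 t.2 * b L t.1 t.2)
      (D (col t.2) (a L t.1 t.2 * b L t.1 t.2) (a L t.1 t.2)) = _
    rw [a_mul_b, hD.g_apply _ _ ht2, if_pos rfl, Finsupp.smul_single, smul_eq_mul]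
    congr 1
    rw [mul_assoc, sg_sq, mul_one]
  rw [sum_congr rfl h1]
  show ∑ t ∈ Sg J ×ˢ range L, _ = _
  rw [sum_product]
  unfold PP
  refine sum_congr rfl fun s _ => ?_
  show ∑ _ ∈ range L, Finsupp.single (g L s) (kap J / L) = _
  rw [← Finsupp.single_finset_sum, sum_const, card_range, nsmul_eq_mul]
  congr 1
  field_simp

end Pool.Agent.H296R3.FF
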