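import Pool.Agent.H296R3.FF.B3

set_option autoImplicit false

open Finset

namespace Pool.Agent.H296R3.FF

section next
variable {J L N : ℕ} (F : Fam J L N)

/-- fresh pairs -/
def Fam.Fr : Finset (Σ _ : F.ι, Pt) := F.AP.filter (fun x => x.2.1.1 ∉ F.I x.1)

/-- fresh second indices -/
def Fam.Fs (x : Σ _ : F.ι, Pt) : Finset (ℕ × Bool) :=
  (Sg J).filter (fun s => s.1 ∉ insert x.2.1.1 (F.I x.1))

abbrev Fam.NI := Σ _ : (Σ _ : F.ι, Pt), Σ _ : ℕ × Bool, (ℕ ⊕ ℕ)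

def Fam.NS : Finset F.NI :=
  F.Fr.sigma (fun x => (F.Fs x).sigma (fun _ => (range L).disjSum ((range L).erase x.2.2)))

def Fam.nI (y : F.NI) : Finset ℕ := insert y.2.1.1 (insert y.1.2.1.1 (F.I y.1.1))

def Fam.ne (y : F.NI) : Bs :=
  (col (pos y.2.2), nA L (F.e y.1.1).2.1 y.1.2 y.2.1 y.2.2,
    nB L (F.e y.1.1).2.1 (F.e y.1.1).2.2 y.1.2 y.2.1 y.2.2)

noncomputable def Fam.nc (y : F.NI) : ℝ :=
  match y.2.2 with
  | Sum.inl _ => -(F.c y.1.1 * sg y.1.2.1.2 * sg y.2.1.2 / (2 * J * L))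
  | Sum.inr _ => -(F.c y.1.1 / (2 * J * ((L:ℝ) - 1)))

def Fam.nm (y : F.NI) : Option Pt :=
  match y.2.2 with
  | Sum.inl m => some (y.2.1, m)
  | Sum.inr _ => none

lemma Fam.mem_NS {y : F.NI} : y ∈ F.NS ↔
    y.1 ∈ F.Fr ∧ y.2.1 ∈ F.Fs y.1 ∧ y.2.2 ∈ (range L).disjSum ((range L).erase y.1.2.2) := by
  unfold Fam.NS
  rw [mem_sigma, mem_sigma]

lemma Fam.mem_Fr {x : Σ _ : F.ι, Pt} : x ∈ F.Fr ↔
    x.1 ∈ F.S ∧ x.2.1.1 < J ∧ x.2.2 < L ∧ col x.2.2 = (F.e x.1).1 ∧ x.2.1.1 ∉ F.I x.1 := by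
  unfold Fam.Fr
  rw [mem_filter, Fam.AP, mem_sigma, mem_Pc]
  tauto

lemma Fam.adm {y : F.NI} (hy : y ∈ F.NS) :
    Adm L (F.e y.1.1).2.1 (F.e y.1.1).2.2 (F.I y.1.1) y.1.2 y.2.1 y.2.2 := by
  rw [F.mem_NS, F.mem_Fr, Fam.Fs, mem_filter] at hy
  obtain ⟨⟨h1, h2, h3, h4, h5⟩, ⟨h6, h7⟩, h8⟩ := hy
  refine ⟨F.hA _ h1, F.hB _ h1, h5, h3, h7, ?_, ?_⟩
  · rw [mem_disjSum] at h8
    rcases h8 with ⟨m, hm, h⟩ | ⟨r, hr, h⟩
    · rw [← h]; exact mem_range.1 hm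
    · rw [← h]; exact mem_range.1 (mem_of_mem_erase hr)
  · intro r hr
    rw [hr, mem_disjSum] at h8
    rcases h8 with ⟨m, hm, h⟩ | ⟨r', hr', h⟩
    · exact absurd h (by simp)
    · have : r' = r := Sum.inr_injective h
      rw [← this]
      exact ne_of_mem_erase hr'

lemma nA_mem {A B : Gm} {I : Finset ℕ} {p : Pt} {s : ℕ × Bool} {q : ℕ ⊕ ℕ}
    (h : Adm L A B I p s q) : nA L A p s q ∈ Sub (insert s.1 (insert p.1.1 I)) := by
  have hs : s.1 ∈ insert s.1 (insert p.1.1 I) := mem_insert_self _ _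
  have hp : p.1.1 ∈ insert s.1 (insert p.1.1 I) := mem_insert_of_mem (mem_insert_self _ _)
  have hI : I ⊆ insert s.1 (insert p.1.1 I) := (subset_insert _ _).trans (subset_insert _ _)
  have hx : px L A p ∈ Sub (insert s.1 (insert p.1.1 I)) :=
    mul_mem (a_mem hp _) (inv_mem (Sub_mono hI h.hA))
  unfold nA
  cases q with
  | inl m => exact mul_mem (inv_mem hx) (a_mem hs _)
  | inr r =>
    simp only
    split_ifs
    · exact mul_mem (inv_mem hx) (a_mem hp _)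
    · exact mul_mem (mul_mem (inv_mem hx) (g_mem hs)) (inv_mem (b_mem hp _))

lemma nB_mem {A B : Gm} {I : Finset ℕ} {p : Pt} {s : ℕ × Bool} {q : ℕ ⊕ ℕ}
    (h : Adm L A B I p s q) : nB L A B p s q ∈ Sub (insert s.1 (insert p.1.1 I)) := by
  have hs : s.1 ∈ insert s.1 (insert p.1.1 I) := mem_insert_self _ _
  have hp : p.1.1 ∈ insert s.1 (insert p.1.1 I) := mem_insert_of_mem (mem_insert_self _ _)
  have hI : I ⊆ insert s.1 (insert p.1.1 I) := (subset_insert _ _).trans (subset_insert _ _)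
  have hx : px L A p ∈ Sub (insert s.1 (insert p.1.1 I)) :=
    mul_mem (a_mem hp _) (inv_mem (Sub_mono hI h.hA))
  have hy : py L B p ∈ Sub (insert s.1 (insert p.1.1 I)) :=
    mul_mem (inv_mem (Sub_mono hI h.hB)) (b_mem hp _)
  exact mul_mem (inv_mem (nA_mem h)) (mul_mem (mul_mem (inv_mem hx) (g_mem hs)) (inv_mem hy))

lemma Fam.card_ins {x : Σ _ : F.ι, Pt} (hx : x ∈ F.Fr) : (insert x.2.1.1 (F.I x.1)).card = N + 1 := by
  rw [F.mem_Fr] at hx
  rw [card_insert_of_notMem hx.2.2.2.2, F.hN _ hx.1]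

/-- the next family -/
noncomputable def Fam.next : Fam J L (N + 2) where
  ι := F.NI
  S := F.NS
  e := F.ne
  I := F.nI
  c := F.nc
  mn := F.nm
  inj := by
    intro y hy y' hy' h
    have ha := F.adm hy
    have ha' := F.adm hy'
    unfold Fam.ne at h
    simp only [Prod.mk.injEq] at h
    obtain ⟨h1, h2, h3, h4, h5⟩ := K1 ha ha' h.2.1 h.2.2
    rw [F.mem_NS, F.mem_Fr] at hy hy'
    have h6 : (F.e y.1.1).1 = (F.e y'.1.1).1 := by
      rw [← hy.1.2.2.2.1, ← hy'.1.2.2.2.1, h3]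
    have h7 : y.1.1 = y'.1.1 := F.inj _ hy.1.1 _ hy'.1.1 (Prod.ext h6 (Prod.ext h1 h2))
    obtain ⟨⟨t, p⟩, s, q⟩ := y
    obtain ⟨⟨t', p'⟩, s', q'⟩ := y'
    simp only at h3 h4 h5 h7
    subst h3; subst h4; subst h5; subst h7
    rfl
  hI := by
    intro y hy
    rw [F.mem_NS, F.mem_Fr, Fam.Fs, mem_filter, mem_Sg] at hy
    intro k hk
    unfold Fam.nI at hk
    rw [mem_insert, mem_insert] at hk
    rcases hk with rfl | rfl | hk
    · exact mem_range.2 hy.2.1.1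
    · exact mem_range.2 hy.1.2.1
    · exact F.hI _ hy.1.1 hk
  hN := by
    intro y hy
    rw [F.mem_NS, Fam.Fs, mem_filter] at hy
    unfold Fam.nI
    rw [card_insert_of_notMem hy.2.1.2, F.card_ins hy.1]
  hA := fun y hy => nA_mem (F.adm hy)
  hB := fun y hy => nB_mem (F.adm hy)
  vis := by
    intro y hy p hp hl hX hY
    obtain ⟨m, h1, h2⟩ := K2 (F.adm hy) hp hl hX hY
    unfold Fam.nm
    rw [h1, h2]
  mnI := by
    intro y hy p hp
    have ha := F.adm hy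
    unfold Fam.nm at hp
    unfold Fam.nI Fam.ne
    cases hq : y.2.2 with
    | inl m =>
      rw [hq] at hp
      simp only [Option.some.injEq] at hp
      subst hp
      have := ha.hq
      rw [hq] at this
      exact ⟨mem_insert_self _ _, this, rfl⟩
    | inr r =>
      rw [hq] at hp
      simp at hp

lemma Fam.sum_NS {M : Type*} [AddCommMonoid M] (f : F.NI → M) :
    ∑ y ∈ F.NS, f y = ∑ x ∈ F.Fr, ∑ s ∈ F.Fs x, (∑ m ∈ range L, f ⟨x, s, Sum.inl m⟩ +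
      ∑ r ∈ (range L).erase x.2.2, f ⟨x, s, Sum.inr r⟩) := by
  unfold Fam.NS
  rw [sum_sigma]
  refine sum_congr rfl fun x _ => ?_
  rw [sum_sigma]
  refine sum_congr rfl fun s _ => ?_
  rw [sum_disjSum]

lemma Fam.next_q (hJ : 0 < J) (hL : ∃ p, 0 < p ∧ L = 4 * p) : F.next.q ≤ 3 / 4 * F.q := by
  obtain ⟨p, hp, hLp⟩ := hL
  have hL1 : (1:ℝ) < L := by rw [hLp]; push_cast; have : (1:ℝ) ≤ p := by exact_mod_cast hp
                             linarith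
  have hJ0 : (0:ℝ) < J := by exact_mod_cast hJ
  have h1 : F.next.q = ∑ x ∈ F.Fr, ∑ s ∈ F.Fs x,
      F.c x.1 ^ 2 / (2 * J) ^ 2 * (1 / L + 1 / ((L:ℝ) - 1)) := by
    show ∑ y ∈ F.NS, F.nc y ^ 2 = _
    rw [F.sum_NS]
    refine sum_congr rfl fun x hx => sum_congr rfl fun s _ => ?_
    rw [F.mem_Fr] at hx
    simp only [Fam.nc]
    rw [sum_const, sum_const, card_range, card_erase_of_mem (mem_range.2 hx.2.2.1), card_range,
      nsmul_eq_mul, nsmul_eq_mul]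
    have e1 := sg_sq x.2.1.2
    have e2 := sg_sq s.2
    have e3 : ((L - 1 : ℕ) : ℝ) = (L:ℝ) - 1 := by
      rw [Nat.cast_sub (by omega)]; simp
    have e4 : (L:ℝ) - 1 ≠ 0 := by linarith
    have e5 : (L:ℝ) ≠ 0 := by linarith
    have e6 : (F.c x.1 * sg x.2.1.2 * sg s.2 / (2 * J * L)) ^ 2 = F.c x.1 ^ 2 / (2 * J * L) ^ 2 := by
      calc (F.c x.1 * sg x.2.1.2 * sg s.2 / (2 * J * L)) ^ 2 =
          F.c x.1 ^ 2 * (sg x.2.1.2 * sg x.2.1.2) * (sg s.2 * sg s.2) / (2 * J * L) ^ 2 := by ring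
        _ = _ := by rw [e1, e2]; ring
    rw [e3, neg_sq, neg_sq, e6]
    field_simp
  have h2 : F.next.q ≤ ∑ x ∈ F.AP, (2 * J) * (F.c x.1 ^ 2 / (2 * J) ^ 2 * (1 / L + 1 / ((L:ℝ) - 1))) := by
    rw [h1]
    have hnn : (0:ℝ) ≤ 1 / L + 1 / ((L:ℝ) - 1) := by
      have : (0:ℝ) < (L:ℝ) - 1 := by linarith
      positivity
    refine (sum_le_sum fun x _ => ?_).trans
      (sum_le_sum_of_subset_of_nonneg (filter_subset _ _) fun x _ _ => by positivity)
    rw [sum_const, nsmul_eq_mul]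
    refine mul_le_mul_of_nonneg_right ?_ (by positivity)
    have : (F.Fs x).card ≤ (Sg J).card := card_le_card (filter_subset _ _)
    rw [card_Sg] at this
    exact_mod_cast this
  refine h2.trans ?_
  unfold Fam.AP Fam.q
  rw [sum_sigma, mul_sum]
  refine sum_le_sum fun t _ => ?_
  simp only
  have hc : ∀ i, (Pc J L i).card = 2 * J * p := by
    rw [hLp]; exact card_Pc J p
  have hLr : (L:ℝ) = 4 * p := by rw [hLp]; push_cast; ring
  rw [sum_const, hc, nsmul_eq_mul, hLr]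
  rw [hLr] at hL1
  push_cast
  have e1 : (4 * (p:ℝ)) - 1 > 0 := by linarith
  have e2 : (0:ℝ) < p := by exact_mod_cast hp
  have e3 : 2 * (J:ℝ) * p * (2 * J * (F.c t ^ 2 / (2 * J) ^ 2 * (1 / (4 * p) + 1 / (4 * p - 1)))) =
      (1 / 4 + p / (4 * p - 1)) * F.c t ^ 2 := by
    field_simp
  rw [e3]
  refine mul_le_mul_of_nonneg_right ?_ (sq_nonneg _)
  have e4 : (p:ℝ) / (4 * p - 1) ≤ 1 / 3 := by
    rw [div_le_div_iff₀ e1 (by norm_num)]
    have : (1:ℝ) ≤ p := by exact_mod_cast hp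
    linarith
  linarith

lemma Fam.card_Fs {x : Σ _ : F.ι, Pt} (hx : x ∈ F.Fr) :
    ((F.Fs x).card : ℝ) = 2 * ((J:ℝ) - N - 1) := by
  have hsub : insert x.2.1.1 (F.I x.1) ⊆ range J := by
    rw [F.mem_Fr] at hx
    intro k hk
    rw [mem_insert] at hk
    rcases hk with rfl | hk
    · exact mem_range.2 hx.2.1
    · exact F.hI _ hx.1 hk
  have h1 : F.Fs x = (range J \ insert x.2.1.1 (F.I x.1)) ×ˢ univ := by
    ext s
    rw [Fam.Fs, mem_filter, mem_Sg, mem_product, mem_sdiff, mem_range]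
    simp
  have h2 := card_sdiff_add_card_eq_card hsub
  rw [F.card_ins hx, card_range] at h2
  rw [h1, card_product, card_univ, Fintype.card_bool]
  have h3 : ((range J \ insert x.2.1.1 (F.I x.1)).card : ℝ) + (N + 1) = J := by exact_mod_cast h2
  push_cast
  linarith

lemma Fam.next_Mn (hJ : 0 < J) (hL : 0 < L) :
    F.next.Mn = (-(((J:ℝ) - N - 1) / J)) • F.Y := by
  have hJ0 : (J:ℝ) ≠ 0 := by positivity
  have hL0 : (L:ℝ) ≠ 0 := by positivity
  have h1 : F.next.Mn = ∑ x ∈ F.Fr, ∑ s ∈ F.Fs x, ∑ _m ∈ range L,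
      Finsupp.single (F.ph x) (-(F.wt x / (2 * J * L))) := by
    have h2 : ∑ x ∈ F.Fr, ∑ s ∈ F.Fs x, ∑ _m ∈ range L,
        Finsupp.single (F.ph x) (-(F.wt x / (2 * J * L))) =
        ∑ y ∈ F.Fr.sigma (fun x => (F.Fs x).sigma (fun _ => range L)),
          Finsupp.single (F.ph y.1) (-(F.wt y.1 / (2 * J * L))) := by
      rw [sum_sigma]
      refine sum_congr rfl fun x _ => ?_
      rw [sum_sigma]
    rw [h2]
    unfold Fam.Mn
    symm
    refine sum_bij (fun (y : Σ _ : (Σ _ : F.ι, Pt), Σ _ : ℕ × Bool, ℕ) _ =>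
      (⟨⟨y.1, y.2.1, Sum.inl y.2.2⟩, (y.2.1, y.2.2)⟩ : Σ _ : F.next.ι, Pt)) ?_ ?_ ?_ ?_
    · rintro ⟨x, s, m⟩ hy
      rw [mem_sigma, mem_sigma] at hy
      have hm : m < L := mem_range.1 hy.2.2
      have hs := hy.2.1
      rw [Fam.Fs, mem_filter, mem_Sg] at hs
      rw [mem_filter, Fam.AP, mem_sigma, mem_Pc]
      refine ⟨⟨?_, hs.1, hm, rfl⟩, mem_insert_self _ _, rfl⟩
      show (⟨x, s, Sum.inl m⟩ : F.NI) ∈ F.NS
      rw [F.mem_NS]
      exact ⟨hy.1, hy.2.1, inl_mem_disjSum.2 hy.2.2⟩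
    · rintro ⟨x, s, m⟩ _ ⟨x', s', m'⟩ _ h
      have h1 : (⟨x, s, Sum.inl m⟩ : F.NI) = ⟨x', s', Sum.inl m'⟩ := congrArg Sigma.fst h
      have h2 : x = x' := congrArg (fun y : F.NI => y.1) h1
      have h3 : s = s' := congrArg (fun y : F.NI => y.2.1) h1
      have h4 : m = m' := Sum.inl_injective (congrArg (fun y : F.NI => y.2.2) h1)
      subst h2; subst h3; subst h4
      rfl
    · rintro ⟨⟨x, s, q⟩, p⟩ hy
      rw [mem_filter, Fam.AP, mem_sigma] at hy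
      have h3 : F.nm ⟨x, s, q⟩ = some p := hy.2.2
      have h4 : (⟨x, s, q⟩ : F.NI) ∈ F.NS := hy.1.1
      rw [F.mem_NS] at h4
      cases q with
      | inl m =>
        simp only [Fam.nm, Option.some.injEq] at h3
        subst h3
        refine ⟨⟨x, s, m⟩, ?_, rfl⟩
        rw [mem_sigma, mem_sigma]
        exact ⟨h4.1, h4.2.1, inl_mem_disjSum.1 h4.2.2⟩
      | inr r =>
        simp [Fam.nm] at h3
    · rintro ⟨x, s, m⟩ _
      have e1 : F.next.ph ⟨⟨x, s, Sum.inl m⟩, (s, m)⟩ = F.ph x := by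
        show (a L s m * ((px L (F.e x.1).2.1 x.2)⁻¹ * a L s m)⁻¹,
          (((px L (F.e x.1).2.1 x.2)⁻¹ * a L s m)⁻¹ *
            ((px L (F.e x.1).2.1 x.2)⁻¹ * g L s * (py L (F.e x.1).2.2 x.2)⁻¹))⁻¹ * b L s m) =
          (px L (F.e x.1).2.1 x.2, py L (F.e x.1).2.2 x.2)
        rw [Prod.mk.injEq]
        constructor
        · group
        · unfold b; group
      have e2 : F.next.wt ⟨⟨x, s, Sum.inl m⟩, (s, m)⟩ = -(F.wt x / (2 * J * L)) := by
        show -(F.c x.1 * sg x.2.1.2 * sg s.2 / (2 * J * L)) * (kap J * sg s.2) =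
          -(F.c x.1 * (kap J * sg x.2.1.2) / (2 * J * L))
        calc -(F.c x.1 * sg x.2.1.2 * sg s.2 / (2 * J * L)) * (kap J * sg s.2) =
            -(F.c x.1 * (kap J * sg x.2.1.2) * (sg s.2 * sg s.2) / (2 * J * L)) := by ring
          _ = _ := by rw [sg_sq, mul_one]
      rw [e1, e2]
  rw [h1]
  unfold Fam.Y
  rw [smul_sum]
  refine sum_congr rfl fun x hx => ?_
  rw [sum_const, sum_const, smul_smul, card_range, Finsupp.smul_single, Finsupp.smul_single,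
    nsmul_eq_mul, smul_eq_mul]
  congr 1
  push_cast
  rw [F.card_Fs hx]
  field_simp

variable {D : Fin 4 → Gm → (Gm →₀ ℝ)} (hD : Fox D)
include hD

lemma Fam.next_b (hJ : 0 < J) (hL : ∃ p, 0 < p ∧ L = 4 * p) : bmap D F.next.eta = 0 := by
  obtain ⟨p, hp, hLp⟩ := hL
  have hL1 : (1:ℝ) < L := by rw [hLp]; push_cast; have : (1:ℝ) ≤ p := by exact_mod_cast hp
                             linarith
  have hJ0 : (0:ℝ) < J := by exact_mod_cast hJ
  unfold Fam.eta bmap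
  rw [map_sum]
  show ∑ y ∈ F.NS, (Finsupp.linearCombination ℝ fun e : Bs =>
      Finsupp.single (e.2.1 * e.2.2) (D e.1 (e.2.1 * e.2.2) e.2.1))
      (Finsupp.single (F.ne y) (F.nc y)) = 0
  have h1 : ∀ y ∈ F.NS, (Finsupp.linearCombination ℝ fun e : Bs =>
      Finsupp.single (e.2.1 * e.2.2) (D e.1 (e.2.1 * e.2.2) e.2.1))
      (Finsupp.single (F.ne y) (F.nc y)) =
      Finsupp.single (nv L (F.e y.1.1).2.1 (F.e y.1.1).2.2 y.1.2 y.2.1)
        (match y.2.2 with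
          | Sum.inl _ => -(F.c y.1.1 * sg y.1.2.1.2 / (2 * J * L))
          | Sum.inr _ => (F.c y.1.1 * sg y.1.2.1.2 / (2 * J * ((L:ℝ) - 1)))) := by
    intro y hy
    have ha := F.adm hy
    rw [Finsupp.linearCombination_single, Finsupp.smul_single, smul_eq_mul]
    have e1 : (F.ne y).2.1 * (F.ne y).2.2 = nv L (F.e y.1.1).2.1 (F.e y.1.1).2.2 y.1.2 y.2.1 := by
      show nA L (F.e y.1.1).2.1 y.1.2 y.2.1 y.2.2 * ((nA L (F.e y.1.1).2.1 y.1.2 y.2.1 y.2.2)⁻¹ *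
        nv L (F.e y.1.1).2.1 (F.e y.1.1).2.2 y.1.2 y.2.1) = _
      group
    rw [e1]
    congr 1
    obtain ⟨x, s, q⟩ := y
    cases q with
    | inl m =>
      show -(F.c x.1 * sg x.2.1.2 * sg s.2 / (2 * J * L)) * D (col m) (nv L _ _ _ _) _ = _
      have := K3a hD ha
      simp only at this
      show -(F.c x.1 * sg x.2.1.2 * sg s.2 / (2 * J * L)) *
        D (col m) (nv L (F.e x.1).2.1 (F.e x.1).2.2 x.2 s) (nA L (F.e x.1).2.1 x.2 s (Sum.inl m)) = _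
      rw [this]
      simp only
      calc -(F.c x.1 * sg x.2.1.2 * sg s.2 / (2 * J * L)) * sg s.2 =
          -(F.c x.1 * sg x.2.1.2 * (sg s.2 * sg s.2) / (2 * J * L)) := by ring
        _ = _ := by rw [sg_sq, mul_one]
    | inr r =>
      have := K3b hD ha
      simp only at this
      show -(F.c x.1 / (2 * J * ((L:ℝ) - 1))) *
        D (col r) (nv L (F.e x.1).2.1 (F.e x.1).2.2 x.2 s) (nA L (F.e x.1).2.1 x.2 s (Sum.inr r)) = _
      rw [this]
      simp only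
      ring
  rw [sum_congr rfl h1, F.sum_NS]
  refine sum_eq_zero fun x hx => sum_eq_zero fun s _ => ?_
  simp only
  rw [F.mem_Fr] at hx
  rw [sum_const, sum_const, card_range, card_erase_of_mem (mem_range.2 hx.2.2.1), card_range,
    Finsupp.smul_single, Finsupp.smul_single, ← Finsupp.single_add, nsmul_eq_mul, nsmul_eq_mul]
  have e3 : ((L - 1 : ℕ) : ℝ) = (L:ℝ) - 1 := by
    rw [Nat.cast_sub (by omega)]; simp
  have e4 : (L:ℝ) - 1 ≠ 0 := by linarith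
  have e5 : (L:ℝ) ≠ 0 := by linarith
  rw [e3]
  have : (L:ℝ) * -(F.c x.1 * sg x.2.1.2 / (2 * J * L)) +
      ((L:ℝ) - 1) * (F.c x.1 * sg x.2.1.2 / (2 * J * ((L:ℝ) - 1))) = 0 := by
    field_simp
    ring
  rw [this, Finsupp.single_zero]

end next

theorem exists_next {J L N : ℕ} (hJ : 0 < J) (hL : ∃ p, 0 < p ∧ L = 4 * p) (F : Fam J L N) :
    ∃ F' : Fam J L (N + 2), F'.q ≤ 3 / 4 * F.q ∧ F'.Mn = (-(((J:ℝ) - N - 1) / J)) • F.Y ∧
      ∀ D : Fin 4 → Gm → (Gm →₀ ℝ), Fox D → bmap D F'.eta = 0 := by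
  obtain ⟨p, hp, hLp⟩ := id hL
  exact ⟨F.next, F.next_q hJ hL, F.next_Mn hJ (by omega), fun D hD => F.next_b hD hJ hL⟩

end Pool.Agent.H296R3.FF
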